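import Pool.Agent.H15.G.R_seed8.TH176.Nag.Flat

/-! Flattening of triangles in a general direction. -/

namespace Pool.Agent.TH176.Nag

open Finset

variable {ι : Type} {w : ι → ℕ}

theorem Emp_flat {S S' : Set (ℤ × ℤ)} (x y u v : ℤ) (hdet : x * u + y * v = 1)
    (hS : ∀ (p : ℤ × ℤ) (T : ℤ) (k : ℕ), p ∈ S → (p.1 - y * T, p.2 + x * T) ∈ S → (k : ℤ) ≤ T →
      (x * p.1 + y * p.2, (k : ℤ)) ∈ S') (h : Emp w S') : Emp w S := by
  have h1 : Emp w {m : ℤ × ℤ | (u * m.1 - y * m.2, v * m.1 + x * m.2) ∈ S} := by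
    refine Emp_flat0 ?_ h
    intro a B hB k hk
    have hne : B.Nonempty := card_pos.1 (by omega)
    have hmin := hB _ (B.min'_mem hne)
    have hmax := hB _ (B.max'_mem hne)
    have hcard : B.card ≤ ((B.max' hne) - (B.min' hne) + 1).toNat := by
      have h2 : B ⊆ Finset.Icc (B.min' hne) (B.max' hne) := by
        intro b hb
        rw [Finset.mem_Icc]
        exact ⟨B.min'_le b hb, B.le_max' b hb⟩
      have h3 := card_le_card h2
      rw [Int.card_Icc] at h3
      have e : (B.max' hne) + 1 - (B.min' hne) = (B.max' hne) - (B.min' hne) + 1 := by ring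
      rwa [e] at h3
    have h4 := hS (u * a - y * B.min' hne, v * a + x * B.min' hne) (B.max' hne - B.min' hne) k
      hmin (by
        have e1 : u * a - y * B.min' hne - y * (B.max' hne - B.min' hne) = u * a - y * B.max' hne := by ring
        have e2 : v * a + x * B.min' hne + x * (B.max' hne - B.min' hne) = v * a + x * B.max' hne := by ring
        simp only [e1, e2]
        exact hmax) (by omega)
    have e3 : x * (u * a - y * B.min' hne) + y * (v * a + x * B.min' hne) = a := by
      linear_combination a * hdet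
    simp only [e3] at h4
    exact h4
  refine h1.comap x y (-v) u 0 0 (by rw [show x * u - y * -v = x * u + y * v by ring, hdet]; exact one_ne_zero) ?_
  intro m hm
  show (u * (x * m.1 + y * m.2 + 0) - y * (-v * m.1 + u * m.2 + 0),
    v * (x * m.1 + y * m.2 + 0) + x * (-v * m.1 + u * m.2 + 0)) ∈ S
  have e1 : u * (x * m.1 + y * m.2 + 0) - y * (-v * m.1 + u * m.2 + 0) = m.1 := by
    linear_combination m.1 * hdet
  have e2 : v * (x * m.1 + y * m.2 + 0) + x * (-v * m.1 + u * m.2 + 0) = m.2 := by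
    linear_combination m.2 * hdet
  rw [e1, e2]
  exact hm

theorem Emp_mirror {α β μ ν : ℝ} (h : Emp w (Reg (-β) (-α) ν μ)) : Emp w (Reg α β μ ν) := by
  refine h.comap (-1) 0 0 1 0 0 (by norm_num) ?_
  intro m hm
  obtain ⟨h1, h2, h3⟩ := hm
  refine ⟨by simpa using h1, ?_, ?_⟩
  · simp only; push_cast; linarith
  · simp only; push_cast; linarith

/-- the top vertex takes the largest value -/
theorem Emp_regA {α β μ ν : ℝ} (x y u v : ℤ) (hdet : x * u + y * v = 1) (hx : 0 ≤ x)
    (h1 : 0 ≤ x * μ + y) (h2 : x * ν ≤ y) (hn : 0 < μ + ν) {α' β' μ' ν' : ℝ}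
    (hα : α' = x * α) (hβ : β' * (μ + ν) = -(y - x * ν) * α + (y + x * μ) * β)
    (hμ : μ' = x * (x * μ + y)) (hν : ν' * (μ + ν) = (y - x * ν) * (y + x * μ))
    (h : Emp w (Reg α' β' μ' ν')) : Emp w (Reg α β μ ν) := by
  refine Emp_flat x y u v hdet ?_ h
  rintro ⟨a, b⟩ T k ⟨hb, hl, hr⟩ ⟨hb', hl', hr'⟩ hk
  simp only at hb hl hr hb' hl' hr'
  push_cast at hl' hr'
  have hx' : (0 : ℝ) ≤ x := by exact_mod_cast hx
  have hb0 : (0 : ℝ) ≤ b := by exact_mod_cast hb
  have hk' : (k : ℝ) ≤ T := by exact_mod_cast hk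
  refine ⟨by simp, ?_, ?_⟩
  · simp only
    push_cast
    rw [hα, hμ]
    have e : (x : ℝ) * a + y * b - (x * α + x * (x * μ + y) * k) =
        x * ((a - y * T) - (α + μ * (b + x * T))) + (x * μ + y) * b + x * (x * μ + y) * (T - k) := by ring
    have p1 : 0 ≤ (x : ℝ) * ((a - y * T) - (α + μ * (b + x * T))) := mul_nonneg hx' (by linarith)
    have p2 : 0 ≤ ((x : ℝ) * μ + y) * b := mul_nonneg h1 hb0
    have p3 : 0 ≤ (x : ℝ) * (x * μ + y) * (T - k) := mul_nonneg (mul_nonneg hx' h1) (by linarith)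
    linarith
  · simp only
    push_cast
    have e : (μ + ν) * (β' - ν' * k - (x * a + y * b)) =
        (y - x * ν) * ((a - y * T) - (α + μ * (b + x * T))) + (y + x * μ) * (β - ν * b - a)
          + (y - x * ν) * (y + x * μ) * (T - k) := by
      linear_combination hβ - k * hν
    have p1 : 0 ≤ ((y : ℝ) - x * ν) * ((a - y * T) - (α + μ * (b + x * T))) :=
      mul_nonneg (by linarith) (by linarith)
    have p2 : 0 ≤ ((y : ℝ) + x * μ) * (β - ν * b - a) := mul_nonneg (by linarith) (by linarith)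
    have p3 : 0 ≤ ((y : ℝ) - x * ν) * (y + x * μ) * (T - k) :=
      mul_nonneg (mul_nonneg (by linarith) (by linarith)) (by linarith)
    have p4 : 0 ≤ (μ + ν) * (β' - ν' * k - (x * a + y * b)) := by rw [e]; linarith
    have p5 := nonneg_of_mul_nonneg_right p4 hn
    linarith

/-- the top vertex takes the middle value -/
theorem Emp_regC {α β μ ν : ℝ} (x y u v : ℤ) (hdet : x * u + y * v = 1) (hx : 0 ≤ x)
    (h1 : 0 ≤ x * μ + y) (h2 : (y : ℝ) ≤ x * ν) {α' β' μ' ν' : ℝ}
    (hα : α' = x * α) (hβ : β' = x * β)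
    (hμ : μ' = x * (x * μ + y)) (hν : ν' = x * (x * ν - y))
    (h : Emp w (Reg α' β' μ' ν')) : Emp w (Reg α β μ ν) := by
  refine Emp_flat x y u v hdet ?_ h
  rintro ⟨a, b⟩ T k ⟨hb, hl, hr⟩ ⟨hb', hl', hr'⟩ hk
  simp only at hb hl hr hb' hl' hr'
  push_cast at hl' hr'
  have hx' : (0 : ℝ) ≤ x := by exact_mod_cast hx
  have hb0 : (0 : ℝ) ≤ b := by exact_mod_cast hb
  have hk' : (k : ℝ) ≤ T := by exact_mod_cast hk
  refine ⟨by simp, ?_, ?_⟩
  · simp only
    push_cast
    rw [hα, hμ]
    have e : (x : ℝ) * a + y * b - (x * α + x * (x * μ + y) * k) =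
        x * ((a - y * T) - (α + μ * (b + x * T))) + (x * μ + y) * b + x * (x * μ + y) * (T - k) := by ring
    have p1 : 0 ≤ (x : ℝ) * ((a - y * T) - (α + μ * (b + x * T))) := mul_nonneg hx' (by linarith)
    have p2 : 0 ≤ ((x : ℝ) * μ + y) * b := mul_nonneg h1 hb0
    have p3 : 0 ≤ (x : ℝ) * (x * μ + y) * (T - k) := mul_nonneg (mul_nonneg hx' h1) (by linarith)
    linarith
  · simp only
    push_cast
    rw [hβ, hν]
    have e : (x : ℝ) * β - x * (x * ν - y) * k - (x * a + y * b) =
        x * (β - ν * (b + x * T) - (a - y * T)) + (x * ν - y) * b + x * (x * ν - y) * (T - k) := by ring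
    have p1 : 0 ≤ (x : ℝ) * (β - ν * (b + x * T) - (a - y * T)) := mul_nonneg hx' (by linarith)
    have p2 : 0 ≤ ((x : ℝ) * ν - y) * b := mul_nonneg (by linarith) hb0
    have p3 : 0 ≤ (x : ℝ) * (x * ν - y) * (T - k) := mul_nonneg (mul_nonneg hx' (by linarith)) (by linarith)
    linarith

/-- the chain of flattenings of the irrational limit triangle -/
theorem chain {E r : ℝ} (hr : r ^ 2 = 2) (hr0 : 0 < r) {t : ℕ} (ht : 8 ≤ t)
    (h : Emp w (Reg 0 (2 * E * t * r) (16 * t) (2 * t ^ 2 - 16 * t))) :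
    Emp w (Reg 0 (E * (3 + 2 * r)) (1 / 4) (4 + 3 * r)) := by
  have hr1 : 1.4142 < r := by nlinarith
  have hr2 : r < 1.4143 := by nlinarith
  have ht' : (8 : ℝ) ≤ t := by exact_mod_cast ht
  -- step 1
  apply Emp_mirror
  refine Emp_regA 1 1 1 0 (by norm_num) (by norm_num) (by push_cast; linarith) (by push_cast; linarith)
    (by linarith) (α' := -(E * (3 + 2 * r))) (β' := E * (9 - 6 * r)) (μ' := 5 + 3 * r)
    (ν' := 39 - 27 * r) (by push_cast; ring) (by push_cast; linear_combination (-18 * E) * hr)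
    (by push_cast; ring) (by push_cast; linear_combination (-81) * hr) ?_
  -- step 2
  apply Emp_mirror
  refine Emp_regA 2 21 (-10) 1 (by norm_num) (by norm_num) (by push_cast; linarith) (by push_cast; linarith)
    (by linarith) (α' := -(2 * (E * (9 - 6 * r)))) (β' := E * (9 + 3 * r)) (μ' := 198 - 108 * r)
    (ν' := (99 - 54 * r) / 4) (by push_cast; ring) (by push_cast; ring)
    (by push_cast; ring) (by push_cast; ring) ?_
  -- step 3
  apply Emp_mirror
  refine Emp_regA 1 63 1 0 (by norm_num) (by norm_num) (by push_cast; linarith) (by push_cast; linarith)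
    (by linarith) (α' := -(E * (9 + 3 * r))) (β' := 6 * E) (μ' := (351 - 54 * r) / 4)
    (ν' := 36 * r - 27) (by push_cast; ring) (by push_cast; linear_combination (-486 * E) * hr)
    (by push_cast; ring) (by push_cast; linear_combination (-2916) * hr) ?_
  -- step 4
  apply Emp_mirror
  refine Emp_regA 1 69 1 0 (by norm_num) (by norm_num) (by push_cast; linarith) (by push_cast; linarith)
    (by linarith) (α' := -(6 * E)) (β' := E * (2 + 8 * r)) (μ' := 42 + 36 * r)
    (ν' := 6 - 4 * r) (by push_cast; ring) (by push_cast; linear_combination (72 * E) * hr)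
    (by push_cast; ring) (by push_cast; linear_combination (-576) * hr) ?_
  -- step 5
  refine Emp_regA 0 1 0 1 (by norm_num) (by norm_num) (by push_cast; linarith) (by push_cast; linarith)
    (by linarith) (α' := 0) (β' := E * (r - 1) / 2) (μ' := 0)
    (ν' := (3 - 2 * r) / 16) (by push_cast; ring) (by push_cast; linear_combination (16 * E) * hr)
    (by push_cast; ring) (by push_cast; linear_combination (-4) * hr) ?_
  -- step 6
  apply Emp_mirror
  refine Emp_regA 16 1 0 1 (by norm_num) (by norm_num) (by push_cast; linarith) (by push_cast; linarith)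
    (by linarith) (α' := -(8 * E * (r - 1))) (β' := 8 * E * (1 + r)) (μ' := 64 - 32 * r)
    (ν' := 64 + 32 * r) (by push_cast; ring) (by push_cast; linear_combination (-1 * E) * hr)
    (by push_cast; ring) (by push_cast; linear_combination (-4) * hr) ?_
  -- step 7
  refine Emp_regA 0 1 0 1 (by norm_num) (by norm_num) (by push_cast; linarith) (by push_cast; linarith)
    (by linarith) (α' := 0) (β' := E * r / 8) (μ' := 0)
    (ν' := 1 / 128) (by push_cast; ring) (by push_cast; ring)
    (by push_cast; ring) (by push_cast; ring) ?_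
  -- step 8
  refine Emp_regC (16 * t) 1 0 1 (by norm_num) (by positivity) (by push_cast; linarith)
    (by push_cast; linarith) (α' := 0) (β' := 2 * E * t * r) (μ' := 16 * t)
    (ν' := 2 * t ^ 2 - 16 * t) (by push_cast; ring) (by push_cast; ring)
    (by push_cast; ring) (by push_cast; ring) h

end Pool.Agent.TH176.Nag
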