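import Pool.Agent.H15.G.R_seed8.TH176.Nag.Limit
import Pool.Agent.H15.G.R_seed8.TH176.Nag.Taylor
import Pool.Agent.H15.G.R_seed8.TH819.NagA
import Pool.Agent.H15.G.R_seed8.TH15.NagEmpGeneric

/-! Exact emptiness for `n = 2 t ^ 2` points and the transfer to very general complex points. -/

namespace Pool.Agent.TH176.Nag

open Finset

/-- exact emptiness of plane systems for `2 t ^ 2` points -/
theorem Emp_exact {ι : Type} [Fintype ι] {t : ℕ} (ht : 8 ≤ t) (hcard : Fintype.card ι = 2 * t ^ 2)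
    (w : ι → ℕ) (e : ℕ) (h : 2 * e * t * Real.sqrt 2 < ∑ i, (w i : ℝ)) :
    Emp w {m : ℤ × ℤ | 0 ≤ m.1 ∧ 0 ≤ m.2 ∧ m.1 + m.2 ≤ ((2 * e : ℕ) : ℤ)} := by
  have hr : Real.sqrt 2 ^ 2 = 2 := Real.sq_sqrt (by norm_num)
  have hr0 : 0 < Real.sqrt 2 := Real.sqrt_pos.2 (by norm_num)
  set r := Real.sqrt 2 with hrdef
  have ht' : (8 : ℝ) ≤ t := by exact_mod_cast ht
  have hpos : 0 < 2 * t * r := by positivity
  obtain ⟨E, hE1, hE2⟩ : ∃ E : ℝ, (e : ℝ) < E ∧ 2 * E * t * r < ∑ i, (w i : ℝ) := by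
    have h1 : (e : ℝ) < (∑ i, (w i : ℝ)) / (2 * t * r) := by
      rw [lt_div_iff₀ hpos]; linarith
    obtain ⟨E, h2, h3⟩ := exists_between h1
    refine ⟨E, h2, ?_⟩
    rw [lt_div_iff₀ hpos] at h3
    linarith
  apply Emp_P2
  refine Emp_limit (N := 6) (by norm_num) (ω := 3 + 2 * r) (by linarith) ?_ hE1 ?_
  · push_cast; linear_combination 4 * hr
  have e1 : (1 / (((6 : ℕ) : ℝ) - 2)) = 1 / 4 := by norm_num
  have e2 : (((3 + 2 * r) ^ 2 - 1) / (((6 : ℕ) : ℝ) - 2)) = 4 + 3 * r := by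
    push_cast
    rw [div_eq_iff (by norm_num)]
    linear_combination 4 * hr
  rw [e1, e2]
  apply chain hr hr0 ht
  apply Pool.Agent.TH819.NagA.Emp_final
  · positivity
  · nlinarith
  · rw [hcard]; push_cast; ring
  · linarith

section poly
open MvPolynomial Pool.Agent.H932R5

variable {K : Type*} [Field K]

/-- polynomials in two variables as Laurent polynomials -/
noncomputable def toL (K : Type*) [Field K] : MvPolynomial (Fin 2) K →ₐ[K] Lau K :=
  aeval ![mon K (1, 0), mon K (0, 1)]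

theorem toL_monomial (s : Fin 2 →₀ ℕ) (c : K) :
    toL K (monomial s c) = AddMonoidAlgebra.single ((s 0 : ℤ), (s 1 : ℤ)) c := by
  unfold toL
  rw [aeval_monomial, Finsupp.prod_fintype _ _ (fun i => pow_zero _), Fin.prod_univ_two]
  simp only [Matrix.cons_val_zero, Matrix.cons_val_one]
  rw [mon_pow, mon_pow, mon_mul]
  have e : (s 0 • ((1, 0) : ℤ × ℤ) + s 1 • ((0, 1) : ℤ × ℤ)) = ((s 0 : ℤ), (s 1 : ℤ)) := by
    ext <;> simp
  rw [e]
  unfold mon
  rw [← Algebra.smul_def, AddMonoidAlgebra.smul_single]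
  simp

theorem toL_coeff (p : MvPolynomial (Fin 2) K) (m : ℤ × ℤ) :
    (toL K p).coeff m = ∑ s ∈ p.support, if ((s 0 : ℤ), (s 1 : ℤ)) = m then coeff s p else 0 := by
  classical
  conv_lhs => rw [p.as_sum, map_sum]
  rw [AddMonoidAlgebra.coeff_sum, Finsupp.coe_finsetSum, Finset.sum_apply]
  apply sum_congr rfl
  intro s _
  rw [toL_monomial, AddMonoidAlgebra.coeff_single, Finsupp.single_apply]

theorem toL_coeff_nat (p : MvPolynomial (Fin 2) K) (s : Fin 2 →₀ ℕ) :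
    (toL K p).coeff ((s 0 : ℤ), (s 1 : ℤ)) = coeff s p := by
  classical
  rw [toL_coeff]
  by_cases hs : s ∈ p.support
  · rw [Finset.sum_eq_single s]
    · simp
    · intro s' _ hne
      rw [if_neg]
      intro h
      apply hne
      simp only [Prod.mk.injEq, Nat.cast_inj] at h
      ext i
      fin_cases i
      · exact h.1
      · exact h.2
    · intro h; exact absurd hs h
  · rw [notMem_support_iff.1 hs]
    apply sum_eq_zero
    intro s' hs'
    rw [if_neg]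
    intro h
    simp only [Prod.mk.injEq, Nat.cast_inj] at h
    apply hs
    have : s' = s := by
      ext i
      fin_cases i
      · exact h.1
      · exact h.2
    rw [← this]; exact hs'

theorem toL_eq_zero {p : MvPolynomial (Fin 2) K} (h : (toL K p).coeff = 0) : p = 0 := by
  ext s
  rw [← toL_coeff_nat, h]; simp

theorem toL_support {p : MvPolynomial (Fin 2) K} {D : ℕ}
    (hp : ∀ s, coeff s p ≠ 0 → s 0 + s 1 ≤ D) :
    (↑(toL K p).coeff.support : Set (ℤ × ℤ)) ⊆ {m : ℤ × ℤ | 0 ≤ m.1 ∧ 0 ≤ m.2 ∧ m.1 + m.2 ≤ (D : ℤ)} := by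
  intro m hm
  have hm' : (toL K p).coeff m ≠ 0 := by simpa using hm
  rw [toL_coeff] at hm'
  obtain ⟨s, hs, hs'⟩ := Finset.exists_ne_zero_of_sum_ne_zero hm'
  have h1 : ((s 0 : ℤ), (s 1 : ℤ)) = m := by
    by_contra h; rw [if_neg h] at hs'; exact hs' rfl
  have h2 := hp s (mem_support_iff.1 hs)
  rw [← h1]
  refine ⟨by simp, by simp, ?_⟩
  simp only
  exact_mod_cast h2

/-- elements of a power of the ideal of a point of the torus have the multiplicity -/
theorem LM_of_pt {x y : K} (hx : x ≠ 0) (hy : y ≠ 0) {p : MvPolynomial (Fin 2) K} {w : ℕ}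
    {P : Fin 2 → K} (hP0 : P 0 = x) (hP1 : P 1 = y)
    (hp : p ∈ (pt (E := 1) P) ^ w) : LM (toL K p).coeff x y w := by
  refine Pool.Agent.TH671.NagI1.LM_of_mem_ker_pow hx hy (evL x y hx hy) (evL_mon x y hx hy) ?_
  have h1 : (pt (E := 1) P) ≤ Ideal.comap (toL K : MvPolynomial (Fin 2) K →+* Lau K)
      (RingHom.ker (evL x y hx hy : Lau K →+* K)) := by
    unfold pt
    rw [Ideal.span_le]
    rintro _ ⟨j, rfl⟩
    show (evL x y hx hy) (toL K (X j - C (P j))) = 0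
    rw [map_sub, map_sub]
    have h2 : (evL x y hx hy) (toL K (C (P j))) = P j := by
      have : (C (P j) : MvPolynomial (Fin 2) K) = algebraMap K _ (P j) := rfl
      rw [this, AlgHom.commutes, AlgHom.commutes]; rfl
    rw [h2]
    unfold toL
    rw [aeval_X]
    fin_cases j
    · simp [evL_mon, hP0]
    · simp [evL_mon, hP1]
  have h3 := Ideal.mem_map_of_mem (toL K : MvPolynomial (Fin 2) K →+* Lau K)
    (Ideal.pow_right_mono h1 w hp)
  have h4 : Ideal.map (toL K : MvPolynomial (Fin 2) K →+* Lau K)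
      ((Ideal.comap (toL K : MvPolynomial (Fin 2) K →+* Lau K)
      (RingHom.ker (evL x y hx hy : Lau K →+* K))) ^ w) ≤ (RingHom.ker (evL x y hx hy : Lau K →+* K)) ^ w := by
    rw [Ideal.map_pow]
    exact Ideal.pow_right_mono Ideal.map_comap_le w
  exact h4 h3

end poly

section final
open MvPolynomial Pool.Agent.H932R5

/-- the sum of the multiplicities is at most `C d` at independent points if all plane systems of
even degree with larger sum are empty somewhere -/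
theorem sum_le_of_Emp {n : ℕ} (C : ℝ)
    (h : ∀ (e : ℕ) (w : Fin n → ℕ), C * (2 * e) < ∑ i, (w i : ℝ) →
      Emp w {m : ℤ × ℤ | 0 ≤ m.1 ∧ 0 ≤ m.2 ∧ m.1 + m.2 ≤ ((2 * e : ℕ) : ℤ)})
    {v : Fin n → Fin 3 → ℂ} (hv0 : ∀ i, v i 0 ≠ 0)
    (hind : AlgebraicIndependent (⊥ : Subfield ℂ)
        (fun q : Fin n × Fin 2 => v q.1 q.2.succ / v q.1 0))
    {d : ℕ} {m : Fin n → ℕ} {F : MvPolynomial (Fin 3) ℂ} (hF : F ≠ 0) (hFd : F.IsHomogeneous d)
    (hm : ∀ i : Fin n, ∀ s : Fin 3 →₀ ℕ, (∑ j, s j) < m i →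
            MvPolynomial.coeff s
              (MvPolynomial.aeval
                (fun j : Fin 3 => (X j + MvPolynomial.C (v i j) : MvPolynomial (Fin 3) ℂ)) F) = 0) :
    ∑ i, (m i : ℝ) ≤ C * d := by
  by_contra hcon
  rw [not_le] at hcon
  have hE := h d (fun i => 2 * m i) (by
    push_cast
    rw [← mul_sum]
    linarith)
  have hind' : AlgebraicIndependent ℚ (fun q : Fin n × Fin 2 => v q.1 q.2.succ / v q.1 0) :=
    hind.restrictScalars (algebraMap ℚ (⊥ : Subfield ℂ)).injective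
  have hxy : AlgebraicIndependent ℚ (fun q : Fin n × Fin 2 =>
      ![(fun i => v i 1 / v i 0) q.1, (fun i => v i 2 / v i 0) q.1] q.2) := by
    have e : (fun q : Fin n × Fin 2 => (![(fun i => v i 1 / v i 0) q.1, (fun i => v i 2 / v i 0) q.1] : Fin 2 → ℂ) q.2) =
        (fun q : Fin n × Fin 2 => v q.1 q.2.succ / v q.1 0) := by
      funext q
      obtain ⟨i, j⟩ := q
      fin_cases j <;> rfl
    rw [e]; exact hind'
  have hx : ∀ i, v i 1 / v i 0 ≠ 0 := fun i => hind'.ne_zero (i, 0)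
  have hy : ∀ i, v i 2 / v i 0 ≠ 0 := fun i => hind'.ne_zero (i, 1)
  have hfin : ({m : ℤ × ℤ | 0 ≤ m.1 ∧ 0 ≤ m.2 ∧ m.1 + m.2 ≤ ((2 * d : ℕ) : ℤ)}).Finite := by
    apply Set.Finite.subset (Set.finite_Icc ((0, 0) : ℤ × ℤ) (((2 * d : ℕ) : ℤ), ((2 * d : ℕ) : ℤ)))
    rintro ⟨a, b⟩ ⟨h1, h2, h3⟩
    simp only at h1 h2 h3
    rw [Set.mem_Icc, Prod.mk_le_mk, Prod.mk_le_mk]
    exact ⟨⟨h1, h2⟩, by omega, by omega⟩
  have key := Pool.Agent.TH15.Nag.Emp_generic hfin (fun m hm => ⟨hm.1, hm.2.1⟩) hE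
    (x := fun i => v i 1 / v i 0) (y := fun i => v i 2 / v i 0) hxy
  have h0 := key (toL ℂ (deh ℂ 1 F ^ 2)).coeff (by
    apply toL_support
    intro s hs
    rw [← map_pow] at hs
    have h2 := deh_mem (E := 1) (hFd.pow 2)
    rw [mem_mspan] at h2
    have h3 : Finsupp.degree s ≤ d * 2 := h2 s hs
    rw [Finsupp.degree_eq_sum, Fin.sum_univ_two] at h3
    omega) (by
    intro i
    refine LM_of_pt (hx i) (hy i) (P := fun j : Fin 2 => v i j.succ / v i 0) rfl rfl ?_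
    rw [mul_comm 2 (m i), pow_mul]
    exact Ideal.pow_mem_pow (mem_pt_of_taylor (E := 1) (hv0 i) hFd (hm i)) 2)
  have h1 := toL_eq_zero h0
  have h2 : deh ℂ 1 F = 0 := by
    by_contra hne
    exact pow_ne_zero 2 hne h1
  exact hF (deh_inj (E := 1) hFd h2)

/-- Nagata's inequality for `2 t ^ 2` very general points, `t ≥ 8` -/
theorem nagata_two_sq {t : ℕ} (ht : 8 ≤ t) {v : Fin (2 * t ^ 2) → Fin 3 → ℂ} (hv0 : ∀ i, v i 0 ≠ 0)
    (hind : AlgebraicIndependent (⊥ : Subfield ℂ)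
        (fun q : Fin (2 * t ^ 2) × Fin 2 => v q.1 q.2.succ / v q.1 0))
    {d : ℕ} {m : Fin (2 * t ^ 2) → ℕ} {F : MvPolynomial (Fin 3) ℂ} (hF : F ≠ 0) (hd : 0 < d)
    (hFd : F.IsHomogeneous d)
    (hm : ∀ i : Fin (2 * t ^ 2), ∀ s : Fin 3 →₀ ℕ, (∑ j, s j) < m i →
            MvPolynomial.coeff s
              (MvPolynomial.aeval
                (fun j : Fin 3 => (X j + MvPolynomial.C (v i j) : MvPolynomial (Fin 3) ℂ)) F) = 0) :
    ∑ i, (m i : ℝ) < d * Real.sqrt ((2 * t ^ 2 : ℕ) : ℝ) := by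
  have hsq : Real.sqrt ((2 * t ^ 2 : ℕ) : ℝ) = t * Real.sqrt 2 := by
    push_cast
    rw [Real.sqrt_mul (by norm_num), Real.sqrt_sq (Nat.cast_nonneg t)]
    ring
  have hle : ∑ i, (m i : ℝ) ≤ (t * Real.sqrt 2) * d := by
    refine sum_le_of_Emp (t * Real.sqrt 2) ?_ hv0 hind hF hFd hm
    intro e w hw
    apply Emp_exact ht (by rw [Fintype.card_fin])
    linarith
  rw [hsq]
  refine lt_of_le_of_ne (by linarith) ?_
  intro heq
  have hirr := irrational_sqrt_two
  apply hirr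
  have hdt : ((d : ℝ) * t) ≠ 0 := by
    have : 0 < t := by omega
    positivity
  refine ⟨((∑ i, m i : ℕ) : ℚ) / (d * t), ?_⟩
  push_cast
  rw [div_eq_iff hdt]
  linarith

end final

end Pool.Agent.TH176.Nag
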