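import Pool.Agent.H15.G.R_seed8.TH176.Nag.Stair2

/-! The degeneration from the weighted plane to the charts, final form. -/

namespace Pool.Agent.TH176.Nag

open Finset

/-- exponents of the chart polygon -/
def S3 (N t e : ℕ) : Set (ℤ × ℤ) :=
  {m | ∃ l : ℤ, 0 ≤ l ∧ N * l + m.1 * gs N t + m.2 * gs N (t + 1) = (N - 2) * e ∧
    0 ≤ m.1 * gs N (t + 1) + l ∧ 0 ≤ m.2 * gs N t + l}

/-- exponents of the weighted plane -/
def WP (N e : ℕ) : Set (ℤ × ℤ) :=
  {m | 0 ≤ m.1 ∧ 0 ≤ m.2 ∧ m.1 + (N - 2) * m.2 ≤ (N - 2) * e}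

/-- the pullback to Laurent polynomials of the chart -/
noncomputable def pb {K : Type*} [Field K] (N t e : ℕ) (f : (ℤ × ℤ) →₀ K) : Lau K :=
  f.sum fun m c => c • (s0 N t (zL K N) ^ ((N - 2) * e - m.1.toNat - (N - 2) * m.2.toNat) *
      s1 N t (zL K N) ^ m.1.toNat * s2 N t (zL K N) ^ m.2.toNat)

theorem pb_Dg {K : Type*} [Field K] [CharZero K] {N : ℕ} (hN : 3 ≤ N) (t e : ℕ) {f : (ℤ × ℤ) →₀ K}
    (hf : (↑f.support : Set (ℤ × ℤ)) ⊆ WP N e) :
    Dg N (gs N t) (gs N (t + 1)) ((N - 2) * e) (pb N t e f) := by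
  unfold pb Finsupp.sum
  apply Dg.sum
  intro m hm
  apply Dg.smul
  obtain ⟨h1, h2, h3⟩ := hf hm
  obtain ⟨a, ha⟩ := Int.eq_ofNat_of_zero_le h1
  obtain ⟨b, hb⟩ := Int.eq_ofNat_of_zero_le h2
  obtain ⟨M, rfl⟩ : ∃ M, N = M + 2 := ⟨N - 2, by omega⟩
  have e1 : m.1.toNat = a := by omega
  have e2 : m.2.toNat = b := by omega
  rw [e1, e2]
  simp only [Nat.add_sub_cancel]
  have h4 : a + M * b ≤ M * e := by
    rw [ha, hb] at h3
    push_cast at h3
    have : (a : ℤ) + M * b ≤ M * e := by linarith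
    exact_mod_cast this
  have d0 : Dg ((M + 2 : ℕ) : ℤ) (gs ((M + 2 : ℕ) : ℤ) t) (gs ((M + 2 : ℕ) : ℤ) (t + 1)) 1
    (s0 (M + 2) t (zL K (M + 2))) := fun m hm => Pool.Agent.TH819.NagD.supp_s0 hN t m hm
  have d1 : Dg ((M + 2 : ℕ) : ℤ) (gs ((M + 2 : ℕ) : ℤ) t) (gs ((M + 2 : ℕ) : ℤ) (t + 1)) 1
    (s1 (M + 2) t (zL K (M + 2))) := fun m hm => Pool.Agent.TH819.NagD.supp_s1 hN t m hm
  have d2 : Dg ((M + 2 : ℕ) : ℤ) (gs ((M + 2 : ℕ) : ℤ) t) (gs ((M + 2 : ℕ) : ℤ) (t + 1)) (((M + 2 : ℕ) : ℤ) - 2)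
    (s2 (M + 2) t (zL K (M + 2))) := fun m hm => Pool.Agent.TH819.NagD.supp_s2 hN t m hm
  have h5 := ((d0.pow (M * e - a - M * b)).mul (d1.pow a)).mul (d2.pow b)
  have e3 : ((M * e - a - M * b : ℕ) : ℤ) = M * e - a - M * b := by
    have : M * e - a - M * b = M * e - (a + M * b) := by omega
    rw [this, Nat.cast_sub h4]; push_cast; ring
  have e4 : ((M * e - a - M * b : ℕ) : ℤ) * 1 + (a : ℤ) * 1 + (b : ℤ) * (((M + 2 : ℕ) : ℤ) - 2) =
      (((M + 2 : ℕ) : ℤ) - 2) * e := by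
    rw [e3]; push_cast; ring
  rw [e4] at h5
  exact h5

theorem pb_adjoin {K : Type*} [Field K] (N t e : ℕ) (f : (ℤ × ℤ) →₀ K) :
    pb N t e f ∈ Algebra.adjoin K {(zL K N).1, (zL K N).2.1, (zL K N).2.2.1, (zL K N).2.2.2} := by
  set A := Algebra.adjoin K {(zL K N).1, (zL K N).2.1, (zL K N).2.2.1, (zL K N).2.2.2} with hA
  have h0 : (zL K N).1 ∈ A ∧ (zL K N).2.1 ∈ A ∧ (zL K N).2.2.1 ∈ A ∧ (zL K N).2.2.2 ∈ A :=
    ⟨Algebra.subset_adjoin (by simp), Algebra.subset_adjoin (by simp),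
      Algebra.subset_adjoin (by simp), Algebra.subset_adjoin (by simp)⟩
  have h1 : ∀ t, ((stp N)^[t] (zL K N)).1 ∈ A ∧ ((stp N)^[t] (zL K N)).2.1 ∈ A ∧
      ((stp N)^[t] (zL K N)).2.2.1 ∈ A ∧ ((stp N)^[t] (zL K N)).2.2.2 ∈ A := by
    intro t
    induction t with
    | zero => exact h0
    | succ t ih =>
      rw [Function.iterate_succ_apply']
      obtain ⟨a, b, c, d⟩ := ih
      refine ⟨?_, a, b, c⟩
      refine A.sub_mem (A.mul_mem (A.pow_mem a N) d) ?_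
      unfold pN
      apply A.sum_mem
      intro s _
      exact A.mul_mem (A.natCast_mem _) (A.pow_mem b _)
  obtain ⟨a, b, c, d⟩ := h1 t
  unfold pb Finsupp.sum
  apply A.sum_mem
  intro m _
  apply A.smul_mem
  refine A.mul_mem (A.mul_mem (A.pow_mem b _) (A.pow_mem c _)) (A.pow_mem ?_ _)
  exact A.sub_mem (A.mul_mem a d) (A.pow_mem (A.mul_mem b c) _)

/-- scaling the variables by `tv` -/
noncomputable def scl {K : Type} [Field K] (f : (ℤ × ℤ) →₀ LaurentSeries K) : (ℤ × ℤ) →₀ LaurentSeries K :=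
  Finsupp.onFinset f.support (fun m => f m * tv K ^ (m.1 + m.2)) (fun m hm => by
    rw [Finsupp.mem_support_iff]
    intro h
    apply hm
    rw [h, zero_mul])

theorem scl_apply {K : Type} [Field K] (f : (ℤ × ℤ) →₀ LaurentSeries K) (m : ℤ × ℤ) :
    scl f m = f m * tv K ^ (m.1 + m.2) := rfl

theorem scl_support {K : Type} [Field K] (f : (ℤ × ℤ) →₀ LaurentSeries K) :
    (scl f).support = f.support := by
  ext m
  rw [Finsupp.mem_support_iff, Finsupp.mem_support_iff, scl_apply]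
  have : tv K ≠ 0 := by simp [tv]
  simp [zpow_ne_zero _ this]

theorem LM_scl {K : Type} [Field K] {f : (ℤ × ℤ) →₀ LaurentSeries K} {x y : LaurentSeries K} {w : ℕ}
    (h : LM f (tv K * x) (tv K * y) w) : LM (scl f) x y w := by
  intro P hP
  have h1 := h P hP
  unfold pr Finsupp.sum at h1 ⊢
  rw [scl_support, ← h1]
  apply sum_congr rfl
  intro m _
  have ht : tv K ≠ 0 := by simp [tv]
  beta_reduce
  rw [scl_apply, mul_zpow, mul_zpow, zpow_add₀ ht]
  ring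

theorem scl_order {K : Type} [Field K] {f : (ℤ × ℤ) →₀ LaurentSeries K} {m : ℤ × ℤ} (hm : f m ≠ 0) :
    (scl f m).order = (f m).order + (m.1 + m.2) := by
  have ht : tv K ≠ 0 := by simp [tv]
  have h1 : (tv K ^ (m.1 + m.2)).order = m.1 + m.2 := by
    have hp : ∀ n : ℕ, (tv K ^ n).order = n := by
      intro n
      rw [HahnSeries.order_pow, HahnSeries.order_single one_ne_zero]; simp
    rcases le_or_gt 0 (m.1 + m.2) with h | h
    · obtain ⟨n, hn⟩ := Int.eq_ofNat_of_zero_le h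
      rw [hn, zpow_natCast, hp]
    · obtain ⟨n, hn⟩ := Int.eq_ofNat_of_zero_le (show 0 ≤ -(m.1 + m.2) by omega)
      have e : m.1 + m.2 = -(n : ℤ) := by omega
      rw [e]
      have h2 : tv K ^ (-(n : ℤ)) * tv K ^ n = 1 := by
        rw [← zpow_natCast, ← zpow_add₀ ht]; simp
      have h3 := congrArg HahnSeries.order h2
      rw [HahnSeries.order_mul (zpow_ne_zero _ ht) (pow_ne_zero _ ht), hp, HahnSeries.order_one] at h3
      omega
  rw [scl_apply, HahnSeries.order_mul hm (zpow_ne_zero _ ht), h1]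

theorem Emp_chart {ι : Type} {w : ι → ℕ} {N : ℕ} (hN : 3 ≤ N) (t e : ℕ)
    (h : Emp w (S3 N (t + 2) e)) : Emp w (WP N e) := by
  obtain ⟨K, _, _, x, y, hx, hy, hf⟩ := h
  have hx' : ∀ i, tv K * cst (x i) ≠ 0 := fun i => (order_cst (hx i)).1
  have hy' : ∀ i, tv K * cst (y i) ≠ 0 := fun i => (order_cst (hy i)).1
  let z : ι → LaurentSeries K × LaurentSeries K × LaurentSeries K × LaurentSeries K :=
    fun i => zK N (tv K * cst (x i)) (tv K * cst (y i))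
  have hne : ∀ i, s0 N (t + 2) (z i) ≠ 0 ∧ s1 N (t + 2) (z i) ≠ 0 ∧ s2 N (t + 2) (z i) ≠ 0 :=
    fun i => s012_ne hN (hx i) (hy i) t
  refine ⟨LaurentSeries K, inferInstance, inferInstance,
    fun i => s1 N (t + 2) (z i) / s0 N (t + 2) (z i),
    fun i => s2 N (t + 2) (z i) / s0 N (t + 2) (z i) ^ (N - 2),
    fun i => div_ne_zero (hne i).2.1 (hne i).1,
    fun i => div_ne_zero (hne i).2.2 (pow_ne_zero _ (hne i).1), ?_⟩
  intro f hfS hfL
  by_contra hf0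
  -- the support in natural form
  have hsup : ∀ m ∈ f.support, 0 ≤ m.1 ∧ 0 ≤ m.2 ∧ m.1 + ((N - 2 : ℕ) : ℤ) * m.2 ≤ (((N - 2) * e : ℕ) : ℤ) := by
    intro m hm
    obtain ⟨h1, h2, h3⟩ := hfS hm
    refine ⟨h1, h2, ?_⟩
    obtain ⟨M, rfl⟩ : ∃ M, N = M + 2 := ⟨N - 2, by omega⟩
    simp only [Nat.add_sub_cancel]
    push_cast at h3 ⊢
    linarith
  have hg0 : pb N (t + 2) e f ≠ 0 := by
    intro h
    exact hf0 (Pool.Agent.TH543.NagJ.comp_inj hN (t + 2) hsup h)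
  have hLM : ∀ i, LM (pb N (t + 2) e f).coeff (tv K * cst (x i)) (tv K * cst (y i)) (w i) := by
    intro i
    refine Pool.Agent.TH671.NagI1.LM_of_mem_ker_pow (hx' i) (hy' i)
      (evL _ _ (hx' i) (hy' i)) (evL_mon _ _ (hx' i) (hy' i)) ?_
    have ez := evL_zL (tv K * cst (x i)) (tv K * cst (y i)) (hx' i) (hy' i) N
    have m0 := map_s0 (evL _ _ (hx' i) (hy' i) : Lau (LaurentSeries K) →+* LaurentSeries K) N (t + 2) (zL _ N)
    have m1 := map_s1 (evL _ _ (hx' i) (hy' i) : Lau (LaurentSeries K) →+* LaurentSeries K) N (t + 2) (zL _ N)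
    have m2 := map_s2 (evL _ _ (hx' i) (hy' i) : Lau (LaurentSeries K) →+* LaurentSeries K) N (t + 2) (zL _ N)
    have m0' : evL _ _ (hx' i) (hy' i) (s0 N (t + 2) (zL _ N)) = s0 N (t + 2) (z i) := by
      rw [show z i = zK N (tv K * cst (x i)) (tv K * cst (y i)) from rfl, ← ez]; exact m0.symm
    have m1' : evL _ _ (hx' i) (hy' i) (s1 N (t + 2) (zL _ N)) = s1 N (t + 2) (z i) := by
      rw [show z i = zK N (tv K * cst (x i)) (tv K * cst (y i)) from rfl, ← ez]; exact m1.symm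
    have m2' : evL _ _ (hx' i) (hy' i) (s2 N (t + 2) (zL _ N)) = s2 N (t + 2) (z i) := by
      rw [show z i = zK N (tv K * cst (x i)) (tv K * cst (y i)) from rfl, ← ez]; exact m2.symm
    refine Pool.Agent.TH698.mem_ker_pow_comp (div_ne_zero (hne i).2.1 (hne i).1)
      (div_ne_zero (hne i).2.2 (pow_ne_zero _ (hne i).1)) (evL _ _ (hx' i) (hy' i)) ?_ ?_ ?_ hsup (hfL i)
    · rw [m0']; exact (hne i).1
    · rw [m0', m1', div_mul_cancel₀ _ (hne i).1]
    · rw [m0', m2', div_mul_cancel₀ _ (pow_ne_zero _ (hne i).1)]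
  set g := pb N (t + 2) e f with hg
  have hDg := pb_Dg hN (t + 2) e hfS
  rw [← hg] at hDg
  have hadj := pb_adjoin N (t + 2) e f
  rw [← hg] at hadj
  have hgc : g.coeff ≠ 0 := by
    intro h
    apply hg0
    ext m
    rw [h]; rfl
  have hsc : scl g.coeff ≠ 0 := by
    intro h
    apply hgc
    rw [← Finsupp.support_eq_empty, ← scl_support, h, Finsupp.support_zero]
  obtain ⟨n, hn1, hn2, hn3⟩ := exists_lead hsc
  apply hn1
  apply hf
  · intro m hm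
    have hm' : (scl g.coeff m).coeff n ≠ 0 := by simpa using hm
    obtain ⟨h1, h2⟩ := hn3 m hm'
    have h3 : m ∈ g.coeff.support := by
      rw [← scl_support]; exact Finsupp.mem_support_iff.2 h1
    have h3' := Finsupp.mem_support_iff.1 h3
    obtain ⟨h4, l, hl⟩ := hDg m h3
    have hN' : (3 : ℤ) ≤ N := by exact_mod_cast hN
    have hl0 : 0 ≤ l := by
      have : (0 : ℤ) ≤ N * l := by rw [← hl]; linarith
      nlinarith
    have hmin : ∀ m' ∈ g.coeff.support, (g.coeff m).order + (m.1 + m.2) ≤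
        (g.coeff m').order + (m'.1 + m'.2) := by
      intro m' hm''
      rw [← scl_order h3', ← scl_order (Finsupp.mem_support_iff.1 hm''), h2]
      by_contra hlt
      have h5 := hn2 m' _ (not_le.1 hlt)
      have h6 : scl g.coeff m' ≠ 0 := by
        rw [← Finsupp.mem_support_iff, scl_support]; exact hm''
      exact h6 (HahnSeries.coeff_order_eq_zero.1 h5)
    have hg1 := gs_pos hN' (t + 2)
    have hg2 := gs_pos hN' (t + 2 + 1)
    refine ⟨l, hl0, by linarith, ?_, ?_⟩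
    · rcases le_or_gt 0 m.1 with h7 | h7
      · positivity
      · obtain ⟨j, hj1, hj2⟩ := Pool.Agent.TH494.NagG.lowest_left (by omega) g hadj m h3' h7 hmin
        obtain ⟨h8, -⟩ := hDg (m.1, j) (Finsupp.mem_support_iff.2 hj2)
        simp only at h8
        have h9 : (m.2 - N * m.1) * gs N (t + 2 + 1) ≤ j * gs N (t + 2 + 1) :=
          mul_le_mul_of_nonneg_right hj1 hg2.le
        have h10 : 0 ≤ (N : ℤ) * (m.1 * gs N (t + 2 + 1) + l) := by nlinarith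
        exact nonneg_of_mul_nonneg_right h10 (by omega)
    · rcases le_or_gt 0 m.2 with h7 | h7
      · positivity
      · obtain ⟨j, hj1, hj2⟩ := Pool.Agent.TH494.NagG.lowest_right (by omega) g hadj m h3' h7 hmin
        obtain ⟨h8, -⟩ := hDg (j, m.2) (Finsupp.mem_support_iff.2 hj2)
        simp only at h8
        have h9 : (m.1 - N * m.2) * gs N (t + 2) ≤ j * gs N (t + 2) :=
          mul_le_mul_of_nonneg_right hj1 hg1.le
        have h10 : 0 ≤ (N : ℤ) * (m.2 * gs N (t + 2) + l) := by nlinarith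
        exact nonneg_of_mul_nonneg_right h10 (by omega)
  · intro i
    exact LM_coeff (LM_scl (hLM i)) n

/-- the triangle in lattice coordinates -/
def Q3 (N t e : ℕ) : Set (ℤ × ℤ) :=
  {p | 0 ≤ p.2 ∧ p.2 ≤ (N - 2) * p.1 ∧
    (N - 2) * p.1 * gs N t ^ 2 + p.2 * (gs N (t + 1) ^ 2 - gs N t ^ 2) ≤ (N - 2) * e * (gs N t * gs N (t + 1))}

theorem Emp_Q3 {ι : Type} {w : ι → ℕ} {N : ℕ} (hN : 3 ≤ N) (t e : ℕ)
    (h : Emp w (Q3 N (t + 2) e)) : Emp w (WP N e) := by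
  apply Emp_chart hN t e
  have hN' : (3 : ℤ) ≤ N := by exact_mod_cast hN
  obtain ⟨c, hc⟩ := (gs_mod (N := (N : ℤ)) (t + 1)).1
  obtain ⟨a, ha⟩ := (gs_mod (N := (N : ℤ)) (t + 2)).1
  obtain ⟨b, hb⟩ := (gs_mod (N := (N : ℤ)) (t + 2)).2
  have hrec1 : gs N (t + 1 + 2) = N * gs N (t + 1 + 1) - gs N (t + 1) := gs_two (t + 1)
  have hrec2 : gs N (t + 2 + 2) = N * gs N (t + 2 + 1) - gs N (t + 2) := gs_two (t + 2)
  have hmk := gs_markov (N := (N : ℤ)) (t + 2)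
  set g0 := gs N (t + 1) with hg0
  set g1 := gs N (t + 2) with hg1
  set g2 := gs N (t + 3) with hg2
  set g3 := gs N (t + 4) with hg3
  have hrec1' : g2 = N * g1 - g0 := hrec1
  have hrec2' : g3 = N * g2 - g1 := hrec2
  have hmk' : g1 ^ 2 + g2 ^ 2 + (N - 2) = N * g1 * g2 := hmk
  have hb' : g2 - 1 = (N - 2) * b := hb
  -- (g2 - g0)/M and (g3 - g1)/M
  obtain ⟨f1, hf1⟩ : ∃ f1 : ℤ, g2 - g0 = (N - 2) * f1 := ⟨b - c, by linear_combination hb' - hc⟩
  obtain ⟨f2, hf2⟩ : ∃ f2 : ℤ, g3 - g1 = (N - 2) * f2 := by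
    refine ⟨(N : ℤ) * b + 1 - 2 * a, ?_⟩
    rw [hrec2']
    linear_combination (N : ℤ) * hb' - 2 * ha
  have hM : (0 : ℤ) < N - 2 := by omega
  have hp1 : g0 * g2 = g1 ^ 2 + (N - 2) := by rw [hrec1']; rw [hrec1'] at hmk'; linear_combination -hmk'
  have hp2 : g1 * g3 = g2 ^ 2 + (N - 2) := by rw [hrec2']; linear_combination -hmk'
  have hdet : g0 * f2 - f1 * g1 = N := by
    have : (N - 2 : ℤ) * (g0 * f2 - f1 * g1) = (N - 2) * N := by
      linear_combination -g0 * hf2 + g1 * hf1 + g0 * hrec2' + N * hp1 - g1 * hrec1'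
    exact mul_left_cancel₀ hM.ne' this
  refine (h.sub g0 f1 g1 f2 (-(e : ℤ) * g1) (-(e : ℤ) * g2) (by linarith)).mono ?_
  rintro m ⟨l, hl0, hl1, hl2, hl3⟩
  have hl1' : (N : ℤ) * l + m.1 * g1 + m.2 * g2 = (N - 2) * e := hl1
  have hl2' : 0 ≤ m.1 * g2 + l := hl2
  have hl3' : 0 ≤ m.2 * g1 + l := hl3
  have hα : ((N : ℤ) - 2) * (e - l - m.1 * a - m.2 * b + m.1 * b + m.2 * a) = m.1 * g2 + 2 * l + m.2 * g1 := by
    linear_combination -hl1' + m.1 * ha + m.2 * hb' - m.1 * hb' - m.2 * ha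
  refine ⟨(e - l - m.1 * a - m.2 * b + m.1 * b + m.2 * a, m.2 * g1 + l), ⟨hl3', ?_, ?_⟩, ?_⟩
  · show m.2 * g1 + l ≤ ((N : ℤ) - 2) * (e - l - m.1 * a - m.2 * b + m.1 * b + m.2 * a)
    rw [hα]; linarith
  · show ((N : ℤ) - 2) * (e - l - m.1 * a - m.2 * b + m.1 * b + m.2 * a) * g1 ^ 2 +
      (m.2 * g1 + l) * (g2 ^ 2 - g1 ^ 2) ≤ (N - 2) * e * (g1 * g2)
    rw [hα]
    have e1 : (m.1 * g2 + 2 * l + m.2 * g1) * g1 ^ 2 + (m.2 * g1 + l) * (g2 ^ 2 - g1 ^ 2) =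
        (N - 2) * e * (g1 * g2) - (N - 2) * l := by
      linear_combination g1 * g2 * hl1' + l * hmk'
    rw [e1]
    nlinarith
  · ext
    · simp only
      apply mul_left_cancel₀ hM.ne'
      linear_combination (-g0) * hα + (m.2 * g1 + l) * hf1 - m.1 * hp1 - l * hrec1' - g1 * hl1'
    · simp only
      apply mul_left_cancel₀ hM.ne'
      linear_combination (-g1) * hα + (m.2 * g1 + l) * hf2 - m.2 * hp2 - l * hrec2' - g2 * hl1'

end Pool.Agent.TH176.Nag
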